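import Pool.Agent.H9.Gon5

set_option autoImplicit false

namespace Pool.Agent.Results.MP_30555c_co.Counter

open Pool.Agent.H9.Gon

/-- A tree `T` and a simple graph `H` whose Cartesian product has gonality below the expected one. -/
theorem result :
    ∃ (V E V' E' : Type) (_ : Fintype V) (_ : DecidableEq V) (_ : Fintype E)
      (_ : Fintype V') (_ : DecidableEq V') (_ : Fintype E') (s t : E → V) (s' t' : E' → V'),
      IsTreeG s t ∧ IsGraph s' t' ∧ NoParallel s' t' ∧
      gon (prodS s s') (prodS t t') < min (Fintype.card V') (Fintype.card V * gon s' t') :=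
  ⟨Fin 2, Fin 1, Fin 8, Fin 13, inferInstance, inferInstance, inferInstance, inferInstance,
    inferInstance, inferInstance, ks, kt, hs, ht, isTreeK, isGraphH, noPar, by
      have := le_seven
      have := four_le
      simp only [Fintype.card_fin]
      omega⟩

end Pool.Agent.Results.MP_30555c_co.Counter
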